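import Pool.Agent.Run7.h582.FM.Es3
import Pool.Agent.R459.Bsd3

/-!
# The product of Birch and Swinnerton-Dyer for the curves `y² = x³ + a x + q`, `q` near `λ x + c`, when `x` is distributed
according to a measure with polynomial Fourier decay

The theorem is about EVERY finite Borel measure `μ` with bounded support whose Fourier transform is `O (|ξ| ^ (-δ))` for some
`δ > 0` (such measures can live on sets of an arbitrarily small positive Hausdorff dimension), and ALL the integers `q` at a
distance of at most `D` from `λ x + c`.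

Method: a measure with polynomial Fourier decay is replaced by finite families of real numbers with the same exponential
sums (`Pool.Agent.Run7.h582.FM`); the characteristic functions of the integer parts of the members decay at all frequencies
with many binary digits far from those of an integer (with the theorem on integer parts of helper193, `Pool.Agent.N193.PS`);
from there the passage to sums over primes of functions of residues is from the starting files (`Pool.Agent.R459.Eq`, and
helper794's form of it, `Pool.Agent.N794.CG`), and then the lemma of Borel and Cantelli is used.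
The second moment of the logarithm of the product is treated in the starting files (`Pool.Agent.R459.Bsd`).
-/

set_option autoImplicit false
set_option maxHeartbeats 4000000

namespace Pool.Agent.Results.MP_3283e1_nt.FourierDecayProducts

open Finset Filter MeasureTheory
open Pool.Agent.W263.BSD (GoodPrime pointCount)
open Pool.Agent.R459.Eq (pri mem_pri)
open Pool.Agent.R459.Bsd (GG)

/-- `μ` is a finite Borel measure with bounded support and its Fourier transform `ξ ↦ ∫ exp (i ξ t) dμ (t)` is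
`O (|ξ| ^ (-δ))` for some `δ > 0`. -/
def FourierDecay (μ : Measure ℝ) : Prop :=
  IsFiniteMeasure μ ∧ (∃ R : ℝ, μ (Set.Icc (-R) R)ᶜ = 0) ∧ ∃ C δ : ℝ, 0 < δ ∧ ∀ ξ : ℝ, ξ ≠ 0 →
    ‖∫ t : ℝ, Complex.exp (((ξ * t : ℝ) : ℂ) * Complex.I) ∂μ‖ ≤ C * |ξ| ^ (-δ)

open Classical in
/-- The product of `(N_p + 1) / p` over the primes `p ≤ X` of good reduction of `y² = x³ + a x + n`; `N_p + 1` is the number of
the points over `F_p`, including the point at infinity. -/
noncomputable def product (a n : ℤ) (X : ℕ) : ℝ :=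
  ∏ p ∈ (range (X + 1)).filter (fun p => GoodPrime a n p), ((pointCount a n p : ℝ) + 1) / p

lemma product_pos (a n : ℤ) (X : ℕ) : 0 < product a n X := by
  classical
  unfold product
  apply prod_pos
  intro p hp
  rw [mem_filter] at hp
  have : (0 : ℝ) < p := by exact_mod_cast hp.2.1.pos
  positivity

lemma product_eq (a n : ℤ) (x : ℕ) : Real.log (product a n x) = ∑ p ∈ pri x, GG a p n := by
  classical
  unfold product
  rw [Real.log_prod]
  · have e : ∑ p ∈ pri x, GG a p n = ∑ p ∈ (range (x + 1)).filter (fun p => GoodPrime a n p), GG a p n := by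
      symm
      apply sum_subset
      · intro p hp
        rw [mem_filter, mem_range] at hp
        rw [mem_pri]
        exact ⟨by omega, hp.2.1⟩
      · intro p hp hnp
        rw [mem_pri] at hp
        unfold GG
        rw [if_neg]
        intro hg
        apply hnp
        rw [mem_filter, mem_range]
        exact ⟨by omega, hg⟩
    rw [e]
    apply sum_congr rfl
    intro p hp
    unfold GG
    rw [if_pos (mem_filter.1 hp).2]
  · intro p hp
    rw [mem_filter] at hp
    have : (0 : ℝ) < p := by exact_mod_cast hp.2.1.pos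
    positivity

/-- the measure of the exceptional set -/
theorem main (μ : Measure ℝ) (hμ : FourierDecay μ) : ∃ W : ℕ, 1 ≤ W ∧ ∀ a : ℤ, a ≠ 0 → ∃ C : ℝ, 0 < C ∧
    ∀ (lam c : ℝ) (D X : ℕ), 16 ≤ X → (X : ℝ) ^ W ≤ lam → ∀ l : ℝ, 0 < l →
      μ.real {x | ¬ ∀ q : ℤ, |(q : ℝ) - (lam * x + c)| ≤ D →
        |Real.log (product a q X) - Real.log (Real.log X) / 2| ≤ l * √(Real.log (Real.log X))} ≤
      C * ((D + 1) / l ^ 2 + 1 / lam) := by
  classical
  obtain ⟨A, C₁, _, hC₁, H⟩ := Pool.Agent.Run7.h582.FM.cls_measure Pool.Agent.Run7.h582.FM.CD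
    Pool.Agent.Run7.h582.FM.hasCls_cd μ hμ
  obtain ⟨W, hW, K⟩ := Pool.Agent.R459.Bsd.log_ms 2 le_rfl A (1 / 2) (by norm_num) (by norm_num)
  refine ⟨W, hW, fun a ha => ?_⟩
  obtain ⟨C, hC, J⟩ := K 1 1 le_rfl one_ne_zero a ha
  refine ⟨C₁ * (5 * C + 1), by positivity, fun lam c D X hX hXl l hl => ?_⟩
  have hXr : (16 : ℝ) ≤ X := by exact_mod_cast hX
  have hlam1 : 1 ≤ lam := by
    have : (1 : ℝ) ≤ (X : ℝ) ^ W := one_le_pow₀ (by linarith)
    linarith
  obtain ⟨L, hL⟩ : ∃ L, L = Real.log (Real.log X) := ⟨_, rfl⟩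
  have hL0 : 0 < L := by
    rw [hL]
    apply Real.log_pos
    rw [Real.lt_log_iff_exp_lt (by linarith)]
    linarith [Real.exp_one_lt_d9]
  have h1 := H lam c hlam1 D (fun q => |Real.log (product a q X) - L / 2| ≤ l * √L) (C / l ^ 2) (by positivity) (by
    intro k hk τ S w hS0 hcd
    have hcard : (0 : ℝ) < S.card := by exact_mod_cast hS0.card_pos
    have h2 := J k X hX (by omega) (by
      have h3 : (X : ℝ) ^ W ≤ (2 : ℝ) ^ k := hXl.trans hk
      exact_mod_cast h3) τ S (fun _ => 1 / (S.card : ℝ)) w hcd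
    rw [← hL] at h2
    have h3 : ((S.filter fun i => ¬ |Real.log (product a (w i) X) - L / 2| ≤ l * √L).card : ℝ) * (1 / (S.card : ℝ) * (l ^ 2 * L)) ≤
        C * L := by
      calc ((S.filter fun i => ¬ |Real.log (product a (w i) X) - L / 2| ≤ l * √L).card : ℝ) * (1 / (S.card : ℝ) * (l ^ 2 * L)) =
          ∑ i ∈ S.filter (fun i => ¬ |Real.log (product a (w i) X) - L / 2| ≤ l * √L), 1 / (S.card : ℝ) * (l ^ 2 * L) := by
            rw [sum_const, nsmul_eq_mul]
        _ ≤ ∑ i ∈ S.filter (fun i => ¬ |Real.log (product a (w i) X) - L / 2| ≤ l * √L),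
            1 / (S.card : ℝ) * (∑ p ∈ pri X, GG a p (w i) - L / 2) ^ 2 := by
            apply sum_le_sum
            intro i hi
            have h4 := (mem_filter.1 hi).2
            rw [not_le, product_eq] at h4
            apply mul_le_mul_of_nonneg_left _ (by positivity)
            have h5 : (l * √L) ^ 2 ≤ |∑ p ∈ pri X, GG a p (w i) - L / 2| ^ 2 := pow_le_pow_left₀ (by positivity) h4.le 2
            rw [sq_abs, mul_pow, Real.sq_sqrt hL0.le] at h5
            exact h5
        _ ≤ ∑ i ∈ S, 1 / (S.card : ℝ) * (∑ p ∈ pri X, GG a p (w i) - L / 2) ^ 2 :=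
            sum_le_sum_of_subset_of_nonneg (filter_subset _ _) (fun i _ _ => by positivity)
        _ ≤ C * L := h2
    have h4 : ((S.filter fun i => ¬ |Real.log (product a (w i) X) - L / 2| ≤ l * √L).card : ℝ) ≤ C / l ^ 2 * S.card := by
      have h5 : 0 < 1 / (S.card : ℝ) * (l ^ 2 * L) := by positivity
      apply le_of_mul_le_mul_right _ h5
      refine h3.trans (le_of_eq ?_)
      field_simp
    refine le_trans (le_of_eq ?_) h4
    rw [← Set.ncard_coe_finset]
    congr 2
    ext i
    simp)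
  rw [← hL]
  refine h1.trans ?_
  rw [mul_assoc]
  apply mul_le_mul_of_nonneg_left _ hC₁.le
  have hD0 : (0 : ℝ) ≤ D := Nat.cast_nonneg _
  have e1 : (2 * (D : ℝ) + 5) * (C / l ^ 2) ≤ (5 * C) * ((D + 1) / l ^ 2) := by
    rw [mul_div_assoc', mul_div_assoc']
    apply div_le_div_of_nonneg_right _ (by positivity)
    nlinarith
  have e2 : 0 ≤ ((D : ℝ) + 1) / l ^ 2 := by positivity
  have e3 : 0 ≤ 1 / lam := by positivity
  nlinarith [mul_nonneg hC.le e3]

/-- Let `μ` be a measure with `FourierDecay`. There is `W` such that the following two assertions hold for all `a ≠ 0`. Let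
`P_q(X)` be the product of `(N_p + 1) / p` over the primes `p ≤ X` of good reduction of `y² = x³ + a x + q`.

**(1)** There is `C` such that for all real `λ`, `c`, all `D`, all `X ≥ 16` with `X ^ W ≤ λ` and all `l > 0`: outside of a set of
the measure at most `C ((D + 1) / l ^ 2 + 1 / λ)` of real numbers `x`, ALL the integers `q` at a distance of at most `D` from
`λ x + c` satisfy `|log P_q(X) - (log log X) / 2| ≤ l (log log X) ^ (1 / 2)`.

**(2)** Let `A > 1` and let `X n ≥ exp (exp (n ^ A))` and `lam n ≥ (X n) ^ W` for large `n`, and `c n` arbitrary. For all `D`, for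
`μ`-almost every `x`, all `ε > 0` and all large `n`, ALL the integers `q` at a distance of at most `D` from `lam n * x + c n` satisfy
`(log X) ^ (1 / 2 - ε) ≤ P_q(X) ≤ (log X) ^ (1 / 2 + ε)` for `X = X n`. -/
theorem result (μ : Measure ℝ) (hμ : FourierDecay μ) :
    ∃ W : ℕ, 1 ≤ W ∧ ∀ a : ℤ, a ≠ 0 →
      (∃ C : ℝ, 0 < C ∧ ∀ (lam c : ℝ) (D X : ℕ), 16 ≤ X → (X : ℝ) ^ W ≤ lam → ∀ l : ℝ, 0 < l →
        μ.real {x | ¬ ∀ q : ℤ, |(q : ℝ) - (lam * x + c)| ≤ D →
          |Real.log (product a q X) - Real.log (Real.log X) / 2| ≤ l * √(Real.log (Real.log X))} ≤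
        C * ((D + 1) / l ^ 2 + 1 / lam)) ∧
      (∀ A : ℝ, 1 < A → ∀ (X : ℕ → ℕ) (lam c : ℕ → ℝ),
        (∀ᶠ n : ℕ in atTop, Real.exp (Real.exp ((n : ℝ) ^ A)) ≤ X n ∧ (X n : ℝ) ^ W ≤ lam n) →
        ∀ D : ℕ, ∀ᵐ x ∂μ, ∀ ε : ℝ, 0 < ε → ∀ᶠ n : ℕ in atTop, ∀ q : ℤ, |(q : ℝ) - (lam n * x + c n)| ≤ D →
          Real.log (X n) ^ (1 / 2 - ε) ≤ product a q (X n) ∧ product a q (X n) ≤ Real.log (X n) ^ (1 / 2 + ε)) := by
  classical
  have hfin : IsFiniteMeasure μ := hμ.1
  obtain ⟨W, hW, H⟩ := main μ hμ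
  refine ⟨W, hW, fun a ha => ⟨H a ha, fun A hA X lam c hX D => ?_⟩⟩
  obtain ⟨C, hC, J⟩ := H a ha
  have key : ∀ m : ℕ, ∀ᵐ x ∂μ, ∀ᶠ n : ℕ in atTop, x ∉ {x | ¬ ∀ q : ℤ, |(q : ℝ) - (lam n * x + c n)| ≤ D →
      |Real.log (product a q (X n)) - Real.log (Real.log (X n)) / 2| ≤
        (1 / (m + 1) * √(Real.log (Real.log (X n)))) * √(Real.log (Real.log (X n)))} := by
    intro m
    refine Pool.Agent.Run7.h582.FM.bc0 μ _ (fun n : ℕ => (C * ((D + 1) * (m + 1) ^ 2 + 1)) * (1 / (n : ℝ) ^ A)) ?_ ?_
    · apply Summable.mul_left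
      exact Real.summable_one_div_nat_rpow.2 hA
    · filter_upwards [hX, eventually_ge_atTop 2] with n hn hn2
      obtain ⟨h1, h2⟩ := hn
      have hn2r : (2 : ℝ) ≤ n := by exact_mod_cast hn2
      have hnA : (n : ℝ) ≤ (n : ℝ) ^ A := by
        calc (n : ℝ) = (n : ℝ) ^ (1 : ℝ) := (Real.rpow_one _).symm
          _ ≤ _ := Real.rpow_le_rpow_of_exponent_le (by linarith) hA.le
      have hX0 : (0 : ℝ) < X n := (Real.exp_pos _).trans_le h1
      have hlog : Real.exp ((n : ℝ) ^ A) ≤ Real.log (X n) := by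
        rw [Real.le_log_iff_exp_le hX0]
        exact h1
      have hlog0 : 0 < Real.log (X n) := (Real.exp_pos _).trans_le hlog
      have hll : (n : ℝ) ^ A ≤ Real.log (Real.log (X n)) := by
        rw [Real.le_log_iff_exp_le hlog0]
        exact hlog
      have hA2 : 2 ≤ (n : ℝ) ^ A := hn2r.trans hnA
      have hexp : 7 ≤ Real.exp ((n : ℝ) ^ A) := by
        have h3 : Real.exp 2 ≤ Real.exp ((n : ℝ) ^ A) := Real.exp_le_exp.2 hA2
        have h4 : Real.exp 2 = Real.exp 1 * Real.exp 1 := by rw [← Real.exp_add]; norm_num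
        have h5 := Real.exp_one_gt_d9
        nlinarith
      have h16 : 16 ≤ X n := by
        have h3 : Real.exp 3 ≤ Real.exp (Real.exp ((n : ℝ) ^ A)) := Real.exp_le_exp.2 (by linarith)
        have h4 : Real.exp 3 = Real.exp 1 * Real.exp 1 * Real.exp 1 := by rw [← Real.exp_add, ← Real.exp_add]; norm_num
        have h5 := Real.exp_one_gt_d9
        have h6 : (16 : ℝ) ≤ X n := by nlinarith
        exact_mod_cast h6
      have hlam : (n : ℝ) ^ A ≤ lam n := by
        have h3 : (X n : ℝ) ≤ (X n : ℝ) ^ W := le_self_pow₀ (by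
          have : (16 : ℝ) ≤ X n := by exact_mod_cast h16
          linarith) (by omega)
        have h4 : (n : ℝ) ^ A ≤ Real.exp ((n : ℝ) ^ A) := (Real.add_one_le_exp _).trans' (by linarith)
        have h5 : Real.exp ((n : ℝ) ^ A) ≤ Real.exp (Real.exp ((n : ℝ) ^ A)) := (Real.add_one_le_exp _).trans' (by linarith)
        linarith
      have hs0 : 0 < √(Real.log (Real.log (X n))) := Real.sqrt_pos.2 (by linarith)
      have h3 := J (lam n) (c n) D (X n) h16 h2 (1 / (m + 1) * √(Real.log (Real.log (X n)))) (by positivity)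
      refine h3.trans ?_
      rw [mul_assoc]
      apply mul_le_mul_of_nonneg_left _ hC.le
      have hnA0 : 0 < (n : ℝ) ^ A := by linarith
      have h4 : (1 / ((m : ℝ) + 1) * √(Real.log (Real.log (X n)))) ^ 2 = Real.log (Real.log (X n)) / (m + 1) ^ 2 := by
        rw [mul_pow, Real.sq_sqrt (by linarith)]
        field_simp
      rw [h4]
      have h5 : ((D : ℝ) + 1) / (Real.log (Real.log (X n)) / (m + 1) ^ 2) ≤ ((D + 1) * (m + 1) ^ 2) * (1 / (n : ℝ) ^ A) := by
        have e : ((D : ℝ) + 1) / (Real.log (Real.log (X n)) / (m + 1) ^ 2) = ((D + 1) * (m + 1) ^ 2) * (1 / Real.log (Real.log (X n))) := by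
          have : Real.log (Real.log (X n)) ≠ 0 := by linarith
          field_simp
        rw [e]
        apply mul_le_mul_of_nonneg_left _ (by positivity)
        exact one_div_le_one_div_of_le hnA0 hll
      have h6 : 1 / lam n ≤ 1 / (n : ℝ) ^ A := one_div_le_one_div_of_le hnA0 hlam
      calc _ ≤ ((D + 1) * (m + 1) ^ 2) * (1 / (n : ℝ) ^ A) + 1 / (n : ℝ) ^ A := add_le_add h5 h6
        _ = _ := by ring
  rw [← ae_all_iff] at key
  filter_upwards [key] with x hx ε hε
  obtain ⟨m, hm⟩ := exists_nat_gt (1 / ε)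
  filter_upwards [hx m, hX, eventually_ge_atTop 2] with n hn hXn hn2 q hq
  simp only [Set.mem_setOf_eq, not_not] at hn
  have h1 := hn q hq
  obtain ⟨h2, _⟩ := hXn
  have hX0 : (0 : ℝ) < X n := (Real.exp_pos _).trans_le h2
  have hn2r : (2 : ℝ) ≤ n := by exact_mod_cast hn2
  have hlog : Real.exp ((n : ℝ) ^ A) ≤ Real.log (X n) := by
    rw [Real.le_log_iff_exp_le hX0]
    exact h2
  have hlog0 : 0 < Real.log (X n) := (Real.exp_pos _).trans_le hlog
  have hll : (n : ℝ) ^ A ≤ Real.log (Real.log (X n)) := by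
    rw [Real.le_log_iff_exp_le hlog0]
    exact hlog
  have hll0 : 0 ≤ Real.log (Real.log (X n)) := le_trans (by positivity) hll
  rw [mul_assoc, Real.mul_self_sqrt hll0] at h1
  have h3 : 1 / ((m : ℝ) + 1) ≤ ε := by
    rw [div_lt_iff₀ hε] at hm
    rw [div_le_iff₀ (by positivity)]
    nlinarith
  have h4 : |Real.log (product a q (X n)) - Real.log (Real.log (X n)) / 2| ≤ ε * Real.log (Real.log (X n)) :=
    h1.trans (mul_le_mul_of_nonneg_right h3 hll0)
  rw [abs_le] at h4
  have hP := product_pos a q (X n)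
  constructor
  · rw [← Real.exp_log hP, Real.rpow_def_of_pos hlog0]
    apply Real.exp_le_exp.2
    linarith [h4.1]
  · rw [← Real.exp_log hP, Real.rpow_def_of_pos hlog0]
    apply Real.exp_le_exp.2
    linarith [h4.2]

end Pool.Agent.Results.MP_3283e1_nt.FourierDecayProducts
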