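import Pool.Agent.Run7.h710.TR.E
import Pool.Agent.H491R4.TW2

/-!
# The product of Birch and Swinnerton-Dyer for almost all quadratic twists of any curve by the integers written by a
transducer

The integers `v < a ^ k` are arbitrary, up to few exceptions; the transducer `T` reads the digits of `v` in base `a` and
writes the digits of `T(v)` in base `b` (definitions in `Pool.Agent.Run7.h710.TR.Defs`).

The quadratic twist `E_D` of the curve `y² = x³ + A x + A'` by `D` is `y² = x³ + A D² x + A' D³`. (By the theorem of Rankin and
Selberg the centre is `(log log x) / 2 + O(1)` for a fixed curve; this is not used and not proved here.)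

Method: if two words of `L` digits lead from the same state to the same state and different words are written, then the two
parts of the exponential sum over the integers `T(v)` which belong to these words cancel in part at the places where the
frequency has a digit which is not extremal. From the starting
files: the mean square of the logarithm of the product for families with small characteristic functions
(`Pool.Agent.H491R4.TW`).

Definitions used: in `Pool.Agent.W263.BSD` (file `Pool/Agent/W263/BSD/Defs.lean`): `pointCount a n p` is the number of the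
solutions of `y² = x³ + a x + n` modulo `p`, `GoodPrime a n p`: `p` is a prime which does not divide `2 (4 a³ + 27 n²)`.

Examples: the bitwise conjunction or disjunction of `v` and `m v` (the carries are the states); the integer whose digit `i`
is `f(x_i, x_{i+1}, …, x_{i+r})`, where `x_i` are the digits of `v` and `f` is not constant (one-sided cellular automata).
-/

set_option autoImplicit false

namespace Pool.Agent.Results.MP_3283e1_nt.TransducerTwists

open Finset Filter Pool.Agent.Run7.h710.TR
open Pool.Agent.R459.Eq (pri mem_pri)
open Pool.Agent.W263.BSD (GoodPrime pointCount)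
open Pool.Agent.R459.Bsd (GG)
open Pool.Agent.H491R4.TW (HH cc)

open Classical in
/-- The product of `(N_p + 1) / p` over the primes `p ≤ x` of good reduction of `y² = x³ + a x + b`; `N_p + 1` is the number of
the points over `F_p`, including the point at infinity. -/
noncomputable def product (a b : ℤ) (x : ℕ) : ℝ :=
  ∏ p ∈ (range (x + 1)).filter (fun p => GoodPrime a b p), ((pointCount a b p : ℝ) + 1) / p

open Classical in
/-- The sum of `1 / p - a_p² / (2 p²)`, `a_p = p - N_p`, over the primes `p ≤ x` of good reduction of `y² = x³ + a x + b`. -/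
noncomputable def centre (a b : ℤ) (x : ℕ) : ℝ :=
  ∑ p ∈ (range (x + 1)).filter (fun p => GoodPrime a b p), (1 / (p : ℝ) - ((p : ℝ) - pointCount a b p) ^ 2 / (2 * (p : ℝ) ^ 2))

lemma product_eq (a b D : ℤ) (x : ℕ) : Real.log (product (a * D ^ 2) (b * D ^ 3) x) = ∑ p ∈ pri x, HH a b p D := by
  classical
  unfold product
  rw [Real.log_prod]
  · have e : ∑ p ∈ pri x, HH a b p D =
        ∑ p ∈ (range (x + 1)).filter (fun p => GoodPrime (a * D ^ 2) (b * D ^ 3) p), HH a b p D := by
      symm
      apply sum_subset
      · intro p hp
        rw [mem_filter, mem_range] at hp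
        rw [mem_pri]
        exact ⟨by omega, hp.2.1⟩
      · intro p hp hnp
        rw [mem_pri] at hp
        unfold HH GG
        rw [if_neg]
        intro hg
        apply hnp
        rw [mem_filter, mem_range]
        exact ⟨by omega, hg⟩
    rw [e]
    apply sum_congr rfl
    intro p hp
    unfold HH GG
    rw [if_pos (mem_filter.1 hp).2]
  · intro p hp
    rw [mem_filter] at hp
    have : (0 : ℝ) < p := by exact_mod_cast hp.2.1.pos
    positivity

lemma centre_eq (a b : ℤ) (x : ℕ) : centre a b x = ∑ p ∈ pri x, cc a b p := by
  classical
  unfold centre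
  have e : ∑ p ∈ pri x, cc a b p = ∑ p ∈ (range (x + 1)).filter (fun p => GoodPrime a b p), cc a b p := by
    symm
    apply sum_subset
    · intro p hp
      rw [mem_filter, mem_range] at hp
      rw [mem_pri]
      exact ⟨by omega, hp.2.1⟩
    · intro p hp hnp
      rw [mem_pri] at hp
      unfold cc
      rw [if_neg]
      intro hg
      apply hnp
      rw [mem_filter, mem_range]
      exact ⟨by omega, hg⟩
  rw [e]
  apply sum_congr rfl
  intro p hp
  unfold cc
  rw [if_pos (mem_filter.1 hp).2]

open Classical in
/-- Let `b ≥ 2` and `L ≥ 1`. There is `W` such that for `κ ≠ 0` there is `C > 0` with the following property for all `k`. Let an arbitrary transducer be given which reads digits `< a` and writes digits `< b` (with finitely or infinitely many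
states) such that from every state two words of `L` digits lead to the same state, while different words are written; let it
begin in an arbitrary state `s` and read from the left or from the right; `T(v)` is
the integer which is written when `v` is read. For ALL integers `A`, `A'`, `c`, all `x ≥ 16` with `x ≥ b` and `x ^ W ≤ b ^ k`
and all `l > 0`: all the `v < a ^ k`, with at most `(C / l²) a ^ k` exceptions, satisfy, with `D = c + κ T(v)`,
`|log P_D(x) - centre A A' x| ≤ l (log log x) ^ (1 / 2)`, where `P_D(x)` is the product of `#E_D(F_p) / p` over the primes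
`p ≤ x` of good reduction of the twist `E_D : y² = x³ + A D² x + A' D³`, and the centre is the sum of `1 / p - a_p² / (2 p²)`
over the primes `p ≤ x` of good reduction of `y² = x³ + A x + A'`. -/
theorem result (a b L : ℕ) (hb : 2 ≤ b) (hL : 1 ≤ L) : ∃ W : ℕ, 1 ≤ W ∧ ∀ κ : ℤ, κ ≠ 0 → ∃ C : ℝ, 0 < C ∧
    ∀ (k : ℕ) (S : Type) (τ : S → ℕ → S) (o : S → ℕ → ℕ), Transducer a b L τ o →
    ∀ (left : Bool) (s : S) (c A A' : ℤ) (x : ℕ),
    16 ≤ x → b ≤ x → x ^ W ≤ b ^ k → ∀ l : ℝ, 0 < l →
      (((range (a ^ k)).filter fun v => ¬ |Real.log (product (A * (c + κ * (image a b τ o left k s v : ℕ)) ^ 2)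
        (A' * (c + κ * (image a b τ o left k s v : ℕ)) ^ 3) x) - centre A A' x| ≤ l * √(Real.log (Real.log x))).card : ℝ) ≤
        C / l ^ 2 * (a : ℝ) ^ k := by
  obtain ⟨γ, hγ0, hγ1, hdec⟩ := tr_decays a b L hb hL
  obtain ⟨W, hW, H⟩ := Pool.Agent.H491R4.TW.tw_ms_from b hb (L + 1) γ hγ0 hγ1
  refine ⟨W, hW, fun κ hκ => ?_⟩
  obtain ⟨C, hC, J⟩ := H (b.factorial * (b ^ L).factorial) κ (Nat.mul_pos (Nat.factorial_pos _) (Nat.factorial_pos _)) hκ
  refine ⟨C, hC, fun k S τ o hTr left s c A A' x hx16 hbx hxW l hl => ?_⟩
  have ha : 0 < a := by
    have := two_le hTr s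
    omega
  have hd := hdec S τ o hTr left s k κ c
  have h1 := J A A' k x 0 hx16 hbx hxW (by rw [pow_zero]; omega) ℕ (range (a ^ k)) (wt a k) (val a b τ o left k s c κ)
    ⟨hd.nonneg, hd.sum, fun θ N _ h2 h3 => hd.char θ N h2 h3⟩
  have hxr : (16 : ℝ) ≤ x := by exact_mod_cast hx16
  have hll : 0 < Real.log (Real.log x) := by
    apply Real.log_pos
    rw [Real.lt_log_iff_exp_lt (by linarith)]
    have := Real.exp_one_lt_d9
    linarith
  exact cheb ha (Real.sqrt_pos.2 hll) hl (f := fun v => Real.log (product (A * (c + κ * (image a b τ o left k s v : ℕ)) ^ 2)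
        (A' * (c + κ * (image a b τ o left k s v : ℕ)) ^ 3) x) - centre A A' x) (M := C) (k := k) (by
      rw [Real.sq_sqrt hll.le]
      refine le_trans (le_of_eq ?_) h1
      apply sum_congr rfl
      intro v _
      rw [← product_eq, ← centre_eq]
      rfl)

end Pool.Agent.Results.MP_3283e1_nt.TransducerTwists
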