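import Pool.Agent.Run7.h844.RP.PwTw
import Pool.Agent.Run7.h844.RP.PwG

/-!
# The product of Birch and Swinnerton-Dyer for the quadratic twists of any curve by the values of generalised polynomials at
primes

From `Pool.Agent.W263.BSD` (file `Pool/Agent/W263/BSD/Defs.lean`): `pointCount a b p` is the number of the solutions of
`y² = x³ + a x + b` modulo `p`, `GoodPrime a b p`: `p` is a prime which does not divide `2 (4 a³ + 27 b²)`.

(By the theorem of Rankin and Selberg the `centre` below is `(log log x) / 2 + O(1)` for a fixed curve; this is not used and not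
proved here.)

Method: exponential sums over primes with the phase of a generalised polynomial: derivative bounds uniform in the
coefficients, van der Corput differencing of all orders, bilinear sums, Vaughan's identity (after `Pool.Agent.H895R3.NK`,
`Pool.Agent.H373R2.T7`), with a power saving at all frequencies up to a power, and a discrete Fejér kernel for the passage to
the integer parts (library `Pool.Agent.Run7.h844.RP`). The passage from such exponential sums to sums over primes of
functions of residues, for almost all members, is from the starting files (`Pool.Agent.R459.Bsd`, `H491R4.TW`).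
-/

set_option autoImplicit false

namespace Pool.Agent.Results.MP_3283e1_nt.ValuesAtPrimes

open Finset Filter
open Pool.Agent.W263.BSD (GoodPrime pointCount)
open Pool.Agent.R459.Eq (pri mem_pri)
open Pool.Agent.R459.Bsd (GG TT)
open Pool.Agent.H491R4.TW (HH cc)

/-- The generalised polynomial `∑ a x * t ^ x`, `x ∈ F`, with real exponents and coefficients. -/
noncomputable def genPoly (F : Finset ℝ) (a : ℝ → ℝ) (t : ℝ) : ℝ := ∑ x ∈ F, a x * t ^ x

/-- `c` is the largest exponent; it is positive and not an integer, and its coefficient is not zero. -/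
def Leading (F : Finset ℝ) (a : ℝ → ℝ) (c : ℝ) : Prop :=
  c ∈ F ∧ (∀ x ∈ F, x ≤ c) ∧ 0 < c ∧ (∀ m : ℕ, c ≠ m) ∧ a c ≠ 0

open Classical in
/-- Almost all the integers `D = c₀ + κ ⌊g(q) + z⌋`, where `N < q ≤ 2 N` is prime, up to a proportion of at most `τ` of these
primes `q`, have the property `P`. -/
def Almost (g : ℝ → ℝ) (N : ℕ) (z : ℝ) (κ c₀ : ℤ) (τ : ℝ) (P : ℤ → Prop) : Prop :=
  (((Ioc N (2 * N)).filter (fun q : ℕ => q.Prime ∧ ¬ P (c₀ + κ * ⌊g q + z⌋))).card : ℝ) ≤
    τ * ((Ioc N (2 * N)).filter Nat.Prime).card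

lemma almost_of {F : Finset ℝ} {b : ℝ → ℝ} {N : ℕ} {z : ℝ} {κ c₀ : ℤ} {τ : ℝ} {P Q : ℤ → Prop}
    (h : Pool.Agent.Run7.h844.RP.AlmostI (Pool.Agent.Run7.h844.RP.PB N) (Pool.Agent.Run7.h844.RP.vz F b z) κ c₀ τ P)
    (hPQ : ∀ n, P n → Q n) : Almost (genPoly F b) N z κ c₀ τ Q := by
  have h1 := Pool.Agent.Run7.h844.RP.AlmostI.mono h hPQ
  unfold Pool.Agent.Run7.h844.RP.AlmostI Pool.Agent.Run7.h844.RP.PB at h1
  rw [filter_filter] at h1
  unfold Almost
  convert h1
  rfl

open Classical in
/-- The product of `(N_p + 1) / p` over the primes `p ≤ x` of good reduction of `y² = x³ + a x + b`; `N_p + 1` is the number of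
the points over `F_p`, including the point at infinity. -/
noncomputable def product (a b : ℤ) (x : ℕ) : ℝ :=
  ∏ p ∈ (range (x + 1)).filter (fun p => GoodPrime a b p), ((pointCount a b p : ℝ) + 1) / p

open Classical in
/-- The sum of `1 / p - a_p² / (2 p²)`, `a_p = p - N_p`, over the primes `p ≤ x` of good reduction of `y² = x³ + a x + b`. -/
noncomputable def centre (a b : ℤ) (x : ℕ) : ℝ :=
  ∑ p ∈ (range (x + 1)).filter (fun p => GoodPrime a b p), (1 / (p : ℝ) - ((p : ℝ) - pointCount a b p) ^ 2 / (2 * (p : ℝ) ^ 2))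

lemma product_eq (a b D : ℤ) (x : ℕ) : Real.log (product (a * D ^ 2) (b * D ^ 3) x) = ∑ p ∈ pri x, HH a b p D := by
  classical
  unfold product
  rw [Real.log_prod]
  · have e : ∑ p ∈ pri x, HH a b p D =
        ∑ p ∈ (range (x + 1)).filter (fun p => GoodPrime (a * D ^ 2) (b * D ^ 3) p), HH a b p D := by
      symm
      apply sum_subset
      · intro p hp
        rw [mem_filter, mem_range] at hp
        rw [mem_pri]
        exact ⟨by omega, hp.2.1⟩
      · intro p hp hnp
        rw [mem_pri] at hp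
        unfold HH GG
        rw [if_neg]
        intro hg
        apply hnp
        rw [mem_filter, mem_range]
        exact ⟨by omega, hg⟩
    rw [e]
    apply sum_congr rfl
    intro p hp
    unfold HH GG
    rw [if_pos (mem_filter.1 hp).2]
  · intro p hp
    rw [mem_filter] at hp
    have : (0 : ℝ) < p := by exact_mod_cast hp.2.1.pos
    positivity

lemma centre_eq (a b : ℤ) (x : ℕ) : centre a b x = ∑ p ∈ pri x, cc a b p := by
  classical
  unfold centre
  have e : ∑ p ∈ pri x, cc a b p = ∑ p ∈ (range (x + 1)).filter (fun p => GoodPrime a b p), cc a b p := by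
    symm
    apply sum_subset
    · intro p hp
      rw [mem_filter, mem_range] at hp
      rw [mem_pri]
      exact ⟨by omega, hp.2.1⟩
    · intro p hp hnp
      rw [mem_pri] at hp
      unfold cc
      rw [if_neg]
      intro hg
      apply hnp
      rw [mem_filter, mem_range]
      exact ⟨by omega, hg⟩
  rw [e]
  apply sum_congr rfl
  intro p hp
  unfold cc
  rw [if_pos (mem_filter.1 hp).2]

/-- Let `g(t) = ∑ b x t ^ x` be a generalised polynomial whose largest exponent `c` is positive and not an integer. Let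
`E_D : y² = x³ + a₁ D² x + a₂ D³` be the quadratic twist by `D` of the curve `E : y² = x³ + a₁ x + a₂`. There is `θ > 0` such that
for all `κ ≠ 0` there are `C` and `N₀` such that for all `N ≥ N₀`, all real `z`, ALL integers `a₁`, `a₂`, `c₀`, all `x` with
`16 ≤ x ≤ N ^ θ` and all `l > 0`: almost all the integers `D = c₀ + κ ⌊g(q) + z⌋`, where `q` runs over the primes `N < q ≤ 2 N`,
up to a proportion of at most `C / l²` of the `q`, satisfy `|log P_D(x) - centre a₁ a₂ x| ≤ l (log log x) ^ (1 / 2)`, where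
`P_D(x)` is the product of `#E_D(F_p) / p` over the primes `p ≤ x` of good reduction of `E_D`. -/
theorem result (F : Finset ℝ) (b : ℝ → ℝ) (c : ℝ) (hF : Leading F b c) :
    ∃ θ : ℝ, 0 < θ ∧ ∀ κ : ℤ, κ ≠ 0 → ∃ (C : ℝ) (N₀ : ℕ), 0 < C ∧
        ∀ N : ℕ, N₀ ≤ N → ∀ (z : ℝ) (a₁ a₂ c₀ : ℤ) (x : ℕ), 16 ≤ x → (x : ℝ) ≤ (N : ℝ) ^ θ →
        ∀ l : ℝ, 0 < l → Almost (genPoly F b) N z κ c₀ (C / l ^ 2) (fun D =>
          |Real.log (product (a₁ * D ^ 2) (a₂ * D ^ 3) x) - centre a₁ a₂ x| ≤ l * √(Real.log (Real.log x))) := by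
  obtain ⟨β, hβ, _, N₀, hfam⟩ := Pool.Agent.Run7.h844.RP.primes_fam F c hF.1 hF.2.2.2.1 hF.2.2.1 hF.2.1 b hF.2.2.2.2
  obtain ⟨W, hW, K₁⟩ := Pool.Agent.Run7.h844.RP.ip_tw
  have hW0 : (0 : ℝ) < W := by exact_mod_cast hW
  refine ⟨β / W, by positivity, fun κ hκ => ?_⟩
  obtain ⟨C, hC, J⟩ := K₁ κ hκ
  refine ⟨C, N₀, hC, fun N hN z a₁ a₂ c₀ x hx hxN l hl => ?_⟩
  refine almost_of (J ℕ _ _ _ (hfam N hN z) c₀ a₁ a₂ x hx (Pool.Agent.Run7.h844.RP.le_pow_of hW hxN) l hl) ?_
  intro D hD
  rw [product_eq, centre_eq]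
  exact hD

end Pool.Agent.Results.MP_3283e1_nt.ValuesAtPrimes
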