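import Pool.Agent.Run7.h672.CC.H
import Pool.Agent.H491R4.TW2

/-!
# The product of Birch and Swinnerton-Dyer for quadratic twists of any curve by random integers written by independent random
words

The definitions `len`, `Words`, `cat`, `noRest`, `cutWord`, `WordLaw` are in `Pool.Agent.Run7.h672.CC.Defs`.

The quadratic twist `E_D` of the curve `y² = x³ + A x + A'` by `D` is `y² = x³ + A D² x + A' D³`. (By the theorem of Rankin and
Selberg the centre is `(log log x) / 2 + O(1)` for a fixed curve; this is not used and not proved here.)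

Method: the exponential sums of the random integer `v` are small at all frequencies with many places far from the integers
(`word_decays` in `Pool.Agent.Run7.h672.CC`, by a strong renewal theorem and the exchange of two words which do not commute). From
the starting files: the mean square of the logarithm of the product for families with small characteristic functions
(`Pool.Agent.H491R4.TW`). The form of the statement is that of `TransducerTwists` (helper710).

Definitions used: in `Pool.Agent.W263.BSD` (file `Pool/Agent/W263/BSD/Defs.lean`): `pointCount a n p` is the number of the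
solutions of `y² = x³ + a x + n` modulo `p`, `GoodPrime a n p`: `p` is a prime which does not divide `2 (4 a³ + 27 n²)`.
-/

set_option autoImplicit false

namespace Pool.Agent.Results.MP_3283e1_nt.WordTwists

open Finset Pool.Agent.Run7.h672.CC
open Pool.Agent.R459.Eq (pri mem_pri Decays)
open Pool.Agent.W263.BSD (GoodPrime pointCount)
open Pool.Agent.R459.Bsd (GG)
open Pool.Agent.H491R4.TW (HH cc)

open Classical in
/-- The product of `(N_p + 1) / p` over the primes `p ≤ x` of good reduction of `y² = x³ + a x + b`; `N_p + 1` is the number of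
the points over `F_p`, including the point at infinity. -/
noncomputable def product (a b : ℤ) (x : ℕ) : ℝ :=
  ∏ p ∈ (range (x + 1)).filter (fun p => GoodPrime a b p), ((pointCount a b p : ℝ) + 1) / p

open Classical in
/-- The sum of `1 / p - a_p² / (2 p²)`, `a_p = p - N_p`, over the primes `p ≤ x` of good reduction of `y² = x³ + a x + b`. -/
noncomputable def centre (a b : ℤ) (x : ℕ) : ℝ :=
  ∑ p ∈ (range (x + 1)).filter (fun p => GoodPrime a b p), (1 / (p : ℝ) - ((p : ℝ) - pointCount a b p) ^ 2 / (2 * (p : ℝ) ^ 2))

lemma product_eq (a b D : ℤ) (x : ℕ) : Real.log (product (a * D ^ 2) (b * D ^ 3) x) = ∑ p ∈ pri x, HH a b p D := by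
  classical
  unfold product
  rw [Real.log_prod]
  · have e : ∑ p ∈ pri x, HH a b p D =
        ∑ p ∈ (range (x + 1)).filter (fun p => GoodPrime (a * D ^ 2) (b * D ^ 3) p), HH a b p D := by
      symm
      apply sum_subset
      · intro p hp
        rw [mem_filter, mem_range] at hp
        rw [mem_pri]
        exact ⟨by omega, hp.2.1⟩
      · intro p hp hnp
        rw [mem_pri] at hp
        unfold HH GG
        rw [if_neg]
        intro hg
        apply hnp
        rw [mem_filter, mem_range]
        exact ⟨by omega, hg⟩
    rw [e]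
    apply sum_congr rfl
    intro p hp
    unfold HH GG
    rw [if_pos (mem_filter.1 hp).2]
  · intro p hp
    rw [mem_filter] at hp
    have : (0 : ℝ) < p := by exact_mod_cast hp.2.1.pos
    positivity

lemma centre_eq (a b : ℤ) (x : ℕ) : centre a b x = ∑ p ∈ pri x, cc a b p := by
  classical
  unfold centre
  have e : ∑ p ∈ pri x, cc a b p = ∑ p ∈ (range (x + 1)).filter (fun p => GoodPrime a b p), cc a b p := by
    symm
    apply sum_subset
    · intro p hp
      rw [mem_filter, mem_range] at hp
      rw [mem_pri]
      exact ⟨by omega, hp.2.1⟩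
    · intro p hp hnp
      rw [mem_pri] at hp
      unfold cc
      rw [if_neg]
      intro hg
      apply hnp
      rw [mem_filter, mem_range]
      exact ⟨by omega, hg⟩
  rw [e]
  apply sum_congr rfl
  intro p hp
  unfold cc
  rw [if_pos (mem_filter.1 hp).2]

/-- Let `q` be the law of a random word in base `b` (`Words b q`). There is `W` such that for `κ ≠ 0` there is `C > 0` with the
following property: for all `k`, all laws `w` of random integers `v < b ^ k` written by independent random words (`WordLaw`), ALL
integers `A`, `A'`, `c` and all `x ≥ 16` with `x ≥ b` and `x ^ W ≤ b ^ k`, the mean square of `log P_D(x) - centre A A' x`,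
`D = c + κ v`, is at most `C log log x`, where `P_D(x)` is the product of `#E_D(F_p) / p` over the primes `p ≤ x` of good reduction
of the twist `E_D : y² = x³ + A D² x + A' D³`, and the centre is the sum of `1 / p - a_p² / (2 p²)` over the primes `p ≤ x` of good
reduction of `y² = x³ + A x + A'`. So `|log P_D(x) - centre A A' x| ≤ l (log log x) ^ (1 / 2)` with probability at least
`1 - C / l²`. -/
theorem result (b : ℕ) (q : ℕ → ℕ → ℝ) (hq : Words b q) : ∃ W : ℕ, 1 ≤ W ∧ ∀ κ : ℤ, κ ≠ 0 → ∃ C : ℝ, 0 < C ∧
    ∀ (k : ℕ) (w : ℕ → ℝ), WordLaw b q k w → ∀ (c A A' : ℤ) (x : ℕ), 16 ≤ x → b ≤ x → x ^ W ≤ b ^ k →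
      ∑ v ∈ range (b ^ k), w v * (Real.log (product (A * (c + κ * (v : ℕ)) ^ 2) (A' * (c + κ * (v : ℕ)) ^ 3) x) -
        centre A A' x) ^ 2 ≤ C * Real.log (Real.log x) := by
  obtain ⟨F, A₀, γ, hF, hγ0, hγ1, hdec⟩ := word_decays hq
  obtain ⟨W, hW, H⟩ := Pool.Agent.H491R4.TW.tw_ms_from b hq.two A₀ γ hγ0 hγ1
  refine ⟨W, hW, fun κ hκ => ?_⟩
  obtain ⟨C, hC, J⟩ := H F κ hF hκ
  refine ⟨C, hC, fun k w hw c A A' x hx16 hbx hxW => ?_⟩
  have hd := hdec k w hw κ c
  have h1 := J A A' k x 0 hx16 hbx hxW (by rw [pow_zero]; omega) ℕ (range (b ^ k)) w (fun v => c + κ * (v : ℕ))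
    ⟨hd.nonneg, hd.sum, fun θ N _ h2 h3 => hd.char θ N h2 h3⟩
  refine le_trans (le_of_eq ?_) h1
  apply sum_congr rfl
  intro v _
  rw [← product_eq, ← centre_eq]

end Pool.Agent.Results.MP_3283e1_nt.WordTwists
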